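import Mathlib
import Pool.Agent.H14.Trade

set_option autoImplicit false

namespace Pool.Agent.Results.MP_f34218_co.MinSize

open Pool.Agent.H14.Trade in
theorem result (n : ℕ) (H : Matrix (Fin n) (Fin n) ℂ) (hH : IsHadamard H)
    (T : Finset (Fin n × Fin n)) (hT : IsTrade H T) : n ≤ T.card :=
  main hH hT

end Pool.Agent.Results.MP_f34218_co.MinSize
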